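import Pool.Agent.Helper95.PN.Stmts
import Pool.Agent.Helper10.PW.LIM

/-! Row LIMG: dominated convergence for the momentum operators with cut off. -/

set_option autoImplicit false

namespace Pool.Agent.Helper95.PW

open MeasureTheory Filter

theorem st_LIMG (hCUT : ST_CUT) : ST_LIMG := by
  intro n φ G m hp hG
  obtain ⟨K, hK1, hK, -⟩ := hCUT
  have hK0 : 0 ≤ K := by linarith
  unfold sq
  refine tendsto_finsetSum _ fun s _ => ?_
  have hR : ∀ L : ℕ, (0 : ℝ) < (L : ℝ) + 1 := fun L => by positivity
  set F : Cf n → ℝ := fun x => ∑ k, ((∑ i, K * |G k i s x|) + 3 * K / 2 * |φ s x|) with hF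
  have hFL : MemLp F 2 := by
    refine memLp_finsetSum _ fun k _ => MemLp.add ?_ ?_
    · exact memLp_finsetSum _ fun i _ => ((hG k i s).abs).const_mul K
    · exact ((hp s).abs).const_mul _
  have hm1 : ∀ (L : ℕ) (k : Fin n) (i : Fin 3), Continuous fun x : Cf n =>
      pd i (gm m ((L : ℝ) + 1)) (x k) := fun L k i =>
    (LIM_sm i _ (hK m _ (hR L)).1.sm).continuous.comp (continuous_apply k)
  have hm2 : ∀ (L : ℕ) (k : Fin n), Continuous fun x : Cf n =>
      lap (gm m ((L : ℝ) + 1)) (x k) := fun L k => by
    unfold lap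
    refine continuous_finsetSum _ fun i _ => ?_
    exact (LIM_sm i _ (LIM_sm i _ (hK m _ (hR L)).1.sm)).continuous.comp (continuous_apply k)
  refine tendsto_integral_of_dominated_convergence (fun x => F x ^ 2) (fun L => ?_) ?_
    (fun L => ?_) ?_
  · refine AEStronglyMeasurable.pow ?_ 2
    unfold PG
    refine Finset.aestronglyMeasurable_fun_sum _ fun k _ => AEStronglyMeasurable.add ?_ ?_
    · refine Finset.aestronglyMeasurable_fun_sum _ fun i _ => ?_
      exact (hm1 L k i).aestronglyMeasurable.mul (hG k i s).1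
    · exact ((hm2 L k).div_const 2).aestronglyMeasurable.mul (hp s).1
  · exact hFL.integrable_sq
  · refine Eventually.of_forall fun x => ?_
    have hb : |PG (gm m ((L : ℝ) + 1)) φ G s x| ≤ F x := by
      unfold PG
      refine (Finset.abs_sum_le_sum_abs _ _).trans ?_
      refine Finset.sum_le_sum fun k _ => (abs_add_le _ _).trans (add_le_add ?_ ?_)
      · refine (Finset.abs_sum_le_sum_abs _ _).trans (Finset.sum_le_sum fun i _ => ?_)
        rw [abs_mul]
        exact mul_le_mul_of_nonneg_right ((hK m _ (hR L)).1.d1 i _) (abs_nonneg _)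
      · rw [abs_mul]
        refine mul_le_mul_of_nonneg_right ?_ (abs_nonneg _)
        rw [abs_div, abs_of_pos (by norm_num : (0 : ℝ) < 2)]
        refine div_le_div_of_nonneg_right ?_ (by norm_num)
        unfold lap
        refine (Finset.abs_sum_le_sum_abs _ _).trans ?_
        refine (Finset.sum_le_card_nsmul _ _ K fun i _ => ?_).trans (by simp)
        refine ((hK m _ (hR L)).1.d2 i i _).trans ?_
        rw [div_le_iff₀ (hR L)]
        have : (0 : ℝ) ≤ L := by positivity
        nlinarith
    rw [Real.norm_eq_abs, abs_pow]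
    exact pow_le_pow_left₀ (abs_nonneg _) hb 2
  · refine Eventually.of_forall fun x => ?_
    refine (tendsto_congr' ?_).mpr tendsto_const_nhds
    have hev : ∀ᶠ L : ℕ in atTop, ∀ k, nr (x k) < (L : ℝ) + 1 := by
      rw [eventually_all]
      intro k
      obtain ⟨N, hN⟩ := exists_nat_gt (nr (x k))
      filter_upwards [eventually_ge_atTop N] with L hL
      have : (N : ℝ) ≤ L := by exact_mod_cast hL
      linarith
    filter_upwards [hev] with L hL
    congr 1
    unfold PG
    refine Finset.sum_congr rfl fun k _ => ?_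
    have he := LIM_ev m ((L : ℝ) + 1) (hK m _ (hR L)).2.1 (x k) (hL k)
    rw [LIM_lap m _ _ he]
    simp only [(LIM_pd _ m _ _ he).eq_of_nhds]
    simp

end Pool.Agent.Helper95.PW
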