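import Pool.Agent.Helper95.PN.Stmts
import Pool.Agent.Helper72.PM.PINM

/-!
# Row PINS: the double commutator of one nucleus, before the limit (after Helper72/PM/PINM.lean)
-/

set_option autoImplicit false

namespace Pool.Agent.Helper95.PW

open MeasureTheory Filter

theorem st_PINS (h1 : ST_PAN) (h2 : ST_STB) (h3 : ST_INTM) : ST_PINS := by
  refine ⟨210, by norm_num, ?_⟩
  intro n g K R ε a u hsc hR hin hu hε
  have hP := fun m => (h2 n (g m) u (hsc m).sm hu).2.1
  have hPP := fun m => (h2 n (g m) (fun s => Pg (g m) (u s)) (hsc m).sm (hP m)).2.1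
  have lim : Tendsto (fun j : ℕ =>
      -(∑ m, ((∑ s, ∫ x, pin_S (pinM_U a (1 / ((j : ℝ) + 1))) x * Pg (g m) (u s) x ^ 2) +
        ∑ s, ∫ x, pin_S (pinM_U a (1 / ((j : ℝ) + 1))) x *
          (Pg (g m) (Pg (g m) (u s)) x * u s x)))) atTop
      (nhds (-(∑ m, (one (fun y => 1 / nr (y - a)) (fun s => Pg (g m) (u s)) +
        (∑ s, ∫ x, (∑ k, 1 / nr (x k - a)) * (Pg (g m) (Pg (g m) (u s)) x * u s x)))))) := by
    refine Tendsto.neg (tendsto_finsetSum _ fun m _ =>
      Tendsto.add (tendsto_finsetSum _ fun s _ => ?_) (tendsto_finsetSum _ fun s _ => ?_))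
    · have := pinM_lim h3 a (hP m s).1 (hP m s).2 (hP m s).1 (hP m s).2
      simp only [← pow_two] at this
      exact this
    · exact pinM_lim h3 a (hPP m s).1 (hPP m s).2 (hu s).1 (hu s).2
  obtain ⟨J, hJ⟩ := eventually_atTop.1 (lim.eventually (lt_mem_nhds (sub_lt_self _ hε)))
  refine ⟨J, fun j hj => ?_⟩
  have e0 := hJ j hj
  rw [sub_lt_iff_lt_add] at e0
  refine e0.le.trans (add_le_add_left ?_ ε)
  have hs0 : (0 : ℝ) < 1 / ((j : ℝ) + 1) := by positivity
  clear e0 hJ lim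
  generalize 1 / ((j : ℝ) + 1) = s0 at hs0 ⊢
  have e1 : ∀ m : Fin 3, ((∑ s, ∫ x, pin_S (pinM_U a s0) x * Pg (g m) (u s) x ^ 2) +
        ∑ s, ∫ x, pin_S (pinM_U a s0) x * (Pg (g m) (Pg (g m) (u s)) x * u s x)) =
      ∑ s, 1 / 2 * ∫ x, pin_S (pin_D (g m) (pin_D (g m) (pinM_U a s0))) x * u s x ^ 2 := by
    intro m
    rw [← Finset.sum_add_distrib]
    exact Finset.sum_congr rfl fun s _ =>
      pin_id h1 h2 (hsc m).sm (pinM_smU a hs0) (hu s).1 (hu s).2
  rw [Finset.sum_congr rfl (fun m _ => e1 m), Finset.sum_comm]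
  have e2 : ∀ s, -(∑ m : Fin 3, 1 / 2 * ∫ x, pin_S (pin_D (g m) (pin_D (g m) (pinM_U a s0))) x *
      u s x ^ 2) ≤ 210 * K ^ 2 / R ^ 2 * (∫ x, (∑ k, 1 / nr (x k - a)) * u s x ^ 2) +
        1 / 2 * ∫ x, (∑ k, mor s0 (x k - a)) * u s x ^ 2 := by
    intro s
    have hcu := (hu s).1.continuous
    have i1 : ∀ m, Integrable (fun x => pin_S (pin_D (g m) (pin_D (g m) (pinM_U a s0))) x *
        u s x ^ 2) := by
      intro m
      have hc := (pin_smS (n := n) (pin_smD (hsc m).sm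
        (pin_smD (hsc m).sm (pinM_smU a hs0)))).continuous
      refine (pin_ii (hc.mul hcu) hcu (hu s).2).congr (ae_of_all _ fun x => ?_)
      simp only [Pi.mul_apply]
      ring
    have i2 : Integrable (fun x : Cf n => (∑ k, 1 / nr (x k - a)) * u s x ^ 2) := by
      refine (pinM_int h3 a (hu s).1 (hu s).2 (hu s).1 (hu s).2).congr
        (ae_of_all _ fun x => ?_)
      simp only
      ring
    have i3 : Integrable (fun x : Cf n => (∑ k, mor s0 (x k - a)) * u s x ^ 2) := by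
      have hm : Continuous (fun x : Cf n => ∑ k, mor s0 (x k - a)) := by
        have hm1 : Continuous (mor s0) := by
          have : mor s0 = fun y => 15 / 2 * s0 ^ 4 * pin_f (pin_q s0 y) ^ 7 :=
            funext fun y => pin_mor hs0 y
          rw [this]
          have := (pin_smf hs0).continuous
          fun_prop
        fun_prop
      refine (pin_ii (hm.mul hcu) hcu (hu s).2).congr (ae_of_all _ fun x => ?_)
      simp only [Pi.mul_apply]
      ring
    have l1 : -(∑ m : Fin 3, 1 / 2 * ∫ x, pin_S (pin_D (g m) (pin_D (g m) (pinM_U a s0))) x *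
        u s x ^ 2) = ∫ x, -(∑ m : Fin 3, 1 / 2 *
          (pin_S (pin_D (g m) (pin_D (g m) (pinM_U a s0))) x * u s x ^ 2)) := by
      rw [integral_neg, integral_finsetSum _ (fun m _ => (i1 m).const_mul _)]
      simp only [integral_const_mul]
    have l2 : 210 * K ^ 2 / R ^ 2 * (∫ x, (∑ k, 1 / nr (x k - a)) * u s x ^ 2) +
        1 / 2 * (∫ x, (∑ k, mor s0 (x k - a)) * u s x ^ 2) =
        ∫ x, (210 * K ^ 2 / R ^ 2 * ((∑ k, 1 / nr (x k - a)) * u s x ^ 2) +
          1 / 2 * ((∑ k, mor s0 (x k - a)) * u s x ^ 2)) := by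
      rw [integral_add (i2.const_mul _) (i3.const_mul _), integral_const_mul,
        integral_const_mul]
    rw [l1, l2]
    refine integral_mono (integrable_finsetSum _ fun m _ => (i1 m).const_mul _).neg
      ((i2.const_mul _).add (i3.const_mul _)) (fun x => ?_)
    simp only
    have hp : ∑ k, -(∑ m, 1 / 2 * pin_D (g m) (pin_D (g m) (pinM_U a s0)) (x k)) ≤
        ∑ k, (210 * K ^ 2 / R ^ 2 * (1 / nr (x k - a)) + 1 / 2 * mor s0 (x k - a)) :=
      Finset.sum_le_sum fun k _ => pinM_pt a hs0 hR hsc hin (x k)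
    have q1 : -(∑ m : Fin 3, 1 / 2 *
        (pin_S (pin_D (g m) (pin_D (g m) (pinM_U a s0))) x * u s x ^ 2)) =
        (∑ k, -(∑ m, 1 / 2 * pin_D (g m) (pin_D (g m) (pinM_U a s0)) (x k))) * u s x ^ 2 := by
      unfold pin_S
      rw [Finset.sum_neg_distrib, Finset.sum_comm, neg_mul, Finset.sum_mul]
      congr 1
      refine Finset.sum_congr rfl fun m _ => ?_
      rw [← Finset.mul_sum]
      ring
    have q2 : 210 * K ^ 2 / R ^ 2 * ((∑ k, 1 / nr (x k - a)) * u s x ^ 2) +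
        1 / 2 * ((∑ k, mor s0 (x k - a)) * u s x ^ 2) =
        (∑ k, (210 * K ^ 2 / R ^ 2 * (1 / nr (x k - a)) +
          1 / 2 * mor s0 (x k - a))) * u s x ^ 2 := by
      rw [Finset.sum_add_distrib, ← Finset.mul_sum, ← Finset.mul_sum]
      ring
    rw [q1, q2]
    exact mul_le_mul_of_nonneg_right hp (by positivity)
  unfold one
  rw [← Finset.sum_neg_distrib]
  calc _ ≤ ∑ s, (210 * K ^ 2 / R ^ 2 * (∫ x, (∑ k, 1 / nr (x k - a)) * u s x ^ 2) +
        1 / 2 * ∫ x, (∑ k, mor s0 (x k - a)) * u s x ^ 2) := Finset.sum_le_sum fun s _ => e2 s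
    _ = 210 * K ^ 2 / R ^ 2 * (∑ s, ∫ x, (∑ k, 1 / nr (x k - a)) * u s x ^ 2) +
        1 / 2 * ∑ s, ∫ x, (∑ k, mor s0 (x k - a)) * u s x ^ 2 := by
      rw [Finset.sum_add_distrib, ← Finset.mul_sum, ← Finset.mul_sum]
    _ = _ := by ring

end Pool.Agent.Helper95.PW
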